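import Mathlib

/-!
# The divisibility poset of the ideal class monoid determines a numerical semigroup

For a numerical semigroup `S` (a submonoid of `ℕ` with finite complement) let `Cl(S)` be its ideal
class monoid: the ideals `E ⊆ ℤ` of `S` with setwise addition, up to translation.  It is ordered by
`a ⪯ b` iff `b = a + c` for some `c`.

We prove: if the posets `(Cl(S₁), ⪯)` and `(Cl(S₂), ⪯)` are isomorphic, then `S₁ = S₂`.
-/

namespace Pool.Agent.Results.MP_6e7624_al.PosetDeterminesSemigroup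

open scoped Pointwise

/-- A numerical semigroup: a submonoid of `(ℕ, +)` with finite complement. -/
structure NumericalSemigroup extends AddSubmonoid ℕ where
  finite_compl : (carrierᶜ).Finite

/-- `E ⊆ ℤ` is an ideal of `S`: it is nonempty, `S + E ⊆ E`, and `s + E ⊆ S` for some `s ∈ S`. -/
def IsIdeal (S : NumericalSemigroup) (E : Set ℤ) : Prop :=
  E.Nonempty ∧ (∀ s ∈ S.carrier, ∀ e ∈ E, (s : ℤ) + e ∈ E) ∧
    ∃ s ∈ S.carrier, ∀ e ∈ E, ∃ t ∈ S.carrier, (s : ℤ) + e = (t : ℤ)

/-- The ideals of `S`. -/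
def SIdeal (S : NumericalSemigroup) : Type := {E : Set ℤ // IsIdeal S E}

/-- The sum `I + J = {i + j : i ∈ I, j ∈ J}` of two ideals. -/
def SIdeal.add {S : NumericalSemigroup} (I J : SIdeal S) : SIdeal S :=
  ⟨I.1 + J.1, by
    obtain ⟨⟨i, hi⟩, hI, s, hs, hsI⟩ := I.2
    obtain ⟨⟨j, hj⟩, hJ, t, ht, htJ⟩ := J.2
    refine ⟨⟨i + j, Set.add_mem_add hi hj⟩, ?_, s + t, S.add_mem' hs ht, ?_⟩
    · rintro r hr e he
      obtain ⟨a, ha, b, hb, rfl⟩ := Set.mem_add.1 he
      rw [← add_assoc]
      exact Set.add_mem_add (hI r hr a ha) hb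
    · rintro e he
      obtain ⟨a, ha, b, hb, rfl⟩ := Set.mem_add.1 he
      obtain ⟨u, hu, hu'⟩ := hsI a ha
      obtain ⟨v, hv, hv'⟩ := htJ b hb
      refine ⟨u + v, S.add_mem' hu hv, ?_⟩
      push_cast
      linarith⟩

/-- The relation `I ∼ J` iff `I = z + J` for some `z ∈ ℤ`. -/
instance SIdeal.setoid (S : NumericalSemigroup) : Setoid (SIdeal S) where
  r I J := ∃ z : ℤ, I.1 = {z} + J.1
  iseqv :=
    { refl := fun I => ⟨0, by simp⟩
      symm := by
        rintro I J ⟨z, hz⟩
        refine ⟨-z, ?_⟩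
        rw [hz, ← add_assoc, Set.singleton_add_singleton]
        simp
      trans := by
        rintro I J K ⟨z, hz⟩ ⟨w, hw⟩
        refine ⟨z + w, ?_⟩
        rw [hz, hw, ← add_assoc, Set.singleton_add_singleton] }

/-- The ideal class monoid `Cl(S)` (as a set): ideals of `S` up to translation. -/
def Cl (S : NumericalSemigroup) : Type := Quotient (SIdeal.setoid S)

/-- The addition of `Cl(S)`, induced by the addition of ideals. -/
def Cl.add {S : NumericalSemigroup} : Cl S → Cl S → Cl S :=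
  Quotient.map₂ SIdeal.add (by
    rintro I I' ⟨z, hz⟩ J J' ⟨w, hw⟩
    refine ⟨z + w, ?_⟩
    change I.1 + J.1 = {z + w} + (I'.1 + J'.1)
    rw [hz, hw, ← Set.singleton_add_singleton]
    exact add_add_add_comm _ _ _ _)

/-- The divisibility order of `Cl(S)`: `a ⪯ b` iff `b = a + c` for some `c ∈ Cl(S)`. -/
def Cl.dvd (S : NumericalSemigroup) (a b : Cl S) : Prop := ∃ c : Cl S, b = Cl.add a c

/-! ## Normalised ideals -/

/-- `𝓘₀(S)`. -/
def NI (S : NumericalSemigroup) : Type :=
  {E : Set ℕ // 0 ∈ E ∧ ∀ s ∈ S.carrier, ∀ e ∈ E, s + e ∈ E}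

namespace NI

variable {S : NumericalSemigroup}

def add (E F : NI S) : NI S :=
  ⟨E.1 + F.1, ⟨0, E.2.1, 0, F.2.1, rfl⟩, by
    rintro s hs e he
    obtain ⟨a, ha, b, hb, rfl⟩ := Set.mem_add.1 he
    rw [← add_assoc]
    exact Set.add_mem_add (E.2.2 s hs a ha) hb⟩

theorem sub_compl (E : NI S) : (E.1)ᶜ ⊆ S.carrierᶜ := by
  intro x hx hxS
  exact hx (by simpa using E.2.2 x hxS 0 E.2.1)

theorem compl_finite (E : NI S) : (E.1)ᶜ.Finite := S.finite_compl.subset E.sub_compl

/-- every large natural number lies in `S` -/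
theorem exists_conductor (S : NumericalSemigroup) : ∃ c ∈ S.carrier, ∀ n, c ≤ n → n ∈ S.carrier := by
  obtain ⟨b, hb⟩ := S.finite_compl.bddAbove
  have h : ∀ n, b + 1 ≤ n → n ∈ S.carrier := by
    intro n hn
    by_contra hc
    have := hb (show n ∈ S.carrierᶜ from hc)
    omega
  exact ⟨b + 1, h _ le_rfl, h⟩

def toIdeal (E : NI S) : SIdeal S :=
  ⟨(fun n : ℕ => (n : ℤ)) '' E.1, by
    obtain ⟨c, hc, hc'⟩ := exists_conductor S
    refine ⟨⟨0, 0, E.2.1, rfl⟩, ?_, c, hc, ?_⟩
    · rintro s hs _ ⟨e, he, rfl⟩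
      exact ⟨s + e, E.2.2 s hs e he, by push_cast; rfl⟩
    · rintro _ ⟨e, he, rfl⟩
      exact ⟨c + e, hc' _ (by omega), by push_cast; rfl⟩⟩

/-- the class of a normalised ideal -/
def cls (E : NI S) : Cl S := Quotient.mk _ E.toIdeal

theorem cls_add (E F : NI S) : (E.add F).cls = Cl.add E.cls F.cls := by
  refine congrArg (Quotient.mk _) (Subtype.ext ?_)
  change (fun n : ℕ => (n : ℤ)) '' (E.1 + F.1) = _ + _
  exact Set.image_add (Nat.castAddMonoidHom ℤ)

theorem cls_injective : Function.Injective (cls : NI S → Cl S) := by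
  intro E F h
  obtain ⟨z, hz⟩ := Quotient.exact h
  change (fun n : ℕ => (n : ℤ)) '' E.1 = {z} + (fun n : ℕ => (n : ℤ)) '' F.1 at hz
  have key : ∀ x : ℤ, (∃ e ∈ E.1, (e : ℤ) = x) ↔ ∃ f ∈ F.1, z + (f : ℤ) = x := by
    intro x
    have : x ∈ (fun n : ℕ => (n : ℤ)) '' E.1 ↔ x ∈ ({z} : Set ℤ) + (fun n : ℕ => (n : ℤ)) '' F.1 := by
      rw [hz]
    constructor
    · rintro ⟨e, he, rfl⟩
      obtain ⟨a, ha, _, ⟨f, hf, rfl⟩, hab⟩ := Set.mem_add.1 (this.1 ⟨e, he, rfl⟩)
      rw [Set.mem_singleton_iff] at ha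
      subst ha
      exact ⟨f, hf, hab⟩
    · rintro ⟨f, hf, rfl⟩
      obtain ⟨e, he, he'⟩ := this.2 (Set.add_mem_add (Set.mem_singleton z) ⟨f, hf, rfl⟩)
      exact ⟨e, he, he'⟩
  have h1 : z = 0 := by
    obtain ⟨f, hf, hf'⟩ := (key 0).1 ⟨0, E.2.1, rfl⟩
    obtain ⟨e, he, he'⟩ := (key z).2 ⟨0, F.2.1, by simp⟩
    omega
  subst h1
  refine Subtype.ext (Set.ext fun x => ?_)
  have := key x
  constructor
  · intro hx
    obtain ⟨f, hf, hf'⟩ := this.1 ⟨x, hx, rfl⟩
    have : f = x := by omega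
    exact this ▸ hf
  · intro hx
    obtain ⟨f, hf, hf'⟩ := this.2 ⟨x, hx, by simp⟩
    have : f = x := by omega
    exact this ▸ hf

theorem cls_surjective : Function.Surjective (cls : NI S → Cl S) := by
  intro a
  obtain ⟨I, rfl⟩ := Quotient.exists_rep a
  obtain ⟨⟨i, hi⟩, hI, s, hs, hsI⟩ := I.2
  obtain ⟨μ, hμ, hμ'⟩ := Int.exists_least_of_bdd (P := fun x => x ∈ I.1)
    ⟨-(s : ℤ), fun x hx => by obtain ⟨t, -, ht⟩ := hsI x hx; omega⟩ ⟨i, hi⟩
  refine ⟨⟨{n : ℕ | μ + n ∈ I.1}, by simpa using hμ, fun s hs e he => ?_⟩, ?_⟩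
  · have := hI s hs _ he
    simp only [Set.mem_ofPred_eq]
    push_cast
    rwa [← add_assoc, add_comm μ, add_assoc]
  · refine Quotient.sound ⟨-μ, ?_⟩
    change (fun n : ℕ => (n : ℤ)) '' {n : ℕ | μ + n ∈ I.1} = {-μ} + I.1
    ext x
    simp only [Set.mem_image, Set.mem_ofPred_eq, Set.singleton_add]
    constructor
    · rintro ⟨n, hn, rfl⟩
      exact ⟨_, hn, by ring⟩
    · rintro ⟨y, hy, rfl⟩
      have := hμ' y hy
      obtain ⟨n, hn⟩ := Int.eq_ofNat_of_zero_le (a := -μ + y) (by omega)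
      exact ⟨n, by rw [← hn]; simpa using hy, by rw [← hn]⟩

/-- divisibility among the normalised ideals -/
def dvd (E F : NI S) : Prop := ∃ G : NI S, F = E.add G

theorem cls_dvd (E F : NI S) : Cl.dvd S E.cls F.cls ↔ E.dvd F := by
  constructor
  · rintro ⟨c, hc⟩
    obtain ⟨G, rfl⟩ := cls_surjective c
    exact ⟨G, cls_injective (by rw [hc, cls_add])⟩
  · rintro ⟨G, rfl⟩
    exact ⟨G.cls, by rw [cls_add]⟩

theorem dvd_subset {E F : NI S} (h : E.dvd F) : E.1 ⊆ F.1 := by
  obtain ⟨G, rfl⟩ := h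
  intro x hx
  exact ⟨x, hx, 0, G.2.1, by simp⟩

/-- chains of length `r` above `E` -/
def HasChain : ℕ → NI S → Prop
  | 0, _ => True
  | r + 1, E => ∃ F : NI S, E.dvd F ∧ E ≠ F ∧ HasChain r F

/-- adjoining the largest missing element -/
theorem exists_cover (E : NI S) (h : (E.1)ᶜ.Nonempty) :
    ∃ F : NI S, E.dvd F ∧ E ≠ F ∧ (E.1)ᶜ.ncard = (F.1)ᶜ.ncard + 1 := by
  obtain ⟨m, hm, hmax⟩ := Set.exists_max_image _ id E.compl_finite h
  have hm0 : 0 < m := by
    rcases Nat.eq_zero_or_pos m with h0 | h0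
    · exact absurd E.2.1 (h0 ▸ hm)
    · exact h0
  have hbig : ∀ n, m < n → n ∈ E.1 := by
    intro n hn
    by_contra hc
    have := hmax n hc
    simp only [id] at this
    omega
  -- the ideal generated by `0` and `m`
  let G : NI S := ⟨{x | x ∈ S.carrier ∨ ∃ s ∈ S.carrier, x = s + m}, Or.inl S.zero_mem', by
    rintro s hs e (he | ⟨t, ht, rfl⟩)
    · exact Or.inl (S.add_mem' hs he)
    · exact Or.inr ⟨s + t, S.add_mem' hs ht, by ring⟩⟩
  have hEG : (E.add G).1 = insert m E.1 := by
    ext x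
    simp only [Set.mem_insert_iff]
    constructor
    · intro hx
      obtain ⟨a, ha, b, hb, rfl⟩ := Set.mem_add.1 hx
      rcases hb with hb | ⟨s, hs, rfl⟩
      · exact Or.inr (by rw [add_comm]; exact E.2.2 b hb a ha)
      · rcases Nat.eq_zero_or_pos (a + s) with h0 | h0
        · left; omega
        · right; exact hbig _ (by omega)
    · rintro (rfl | hx)
      · exact ⟨0, E.2.1, x, Or.inr ⟨0, S.zero_mem', by simp⟩, by simp⟩
      · exact ⟨x, hx, 0, G.2.1, by simp⟩
  refine ⟨E.add G, ⟨G, rfl⟩, ?_, ?_⟩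
  · intro hc
    have : m ∈ E.1 := by
      have h1 : m ∈ (E.add G).1 := by rw [hEG]; exact Set.mem_insert _ _
      rwa [← hc] at h1
    exact hm this
  · have : (E.1)ᶜ = insert m ((E.add G).1)ᶜ := by
      rw [hEG]
      ext x
      simp only [Set.mem_compl_iff, Set.mem_insert_iff, not_or]
      constructor
      · intro hx
        by_cases hxm : x = m
        · exact Or.inl hxm
        · exact Or.inr ⟨hxm, hx⟩
      · rintro (rfl | hx)
        · exact hm
        · exact hx.2
    rw [this, Set.ncard_insert_of_notMem _ (compl_finite _)]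
    rw [hEG]
    simp

theorem hasChain_iff (r : ℕ) (E : NI S) : HasChain r E ↔ r ≤ (E.1)ᶜ.ncard := by
  induction r generalizing E with
  | zero => simp [HasChain]
  | succ r ih =>
    constructor
    · rintro ⟨F, hEF, hne, hF⟩
      have h1 := (ih F).1 hF
      have h2 : (F.1)ᶜ ⊂ (E.1)ᶜ := by
        refine ⟨Set.compl_subset_compl.2 (dvd_subset hEF), fun hc => hne (Subtype.ext ?_)⟩
        exact (dvd_subset hEF).antisymm (Set.compl_subset_compl.1 hc)
      have h3 := Set.ncard_lt_ncard h2 E.compl_finite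
      omega
    · intro h
      have hne : (E.1)ᶜ.Nonempty := by
        rw [← Set.ncard_pos E.compl_finite]; omega
      obtain ⟨F, h1, h2, h3⟩ := exists_cover E hne
      exact ⟨F, h1, h2, (ih F).2 (by omega)⟩

end NI

/-! ## Counting -/

/-- complements of size `k` of normalised ideals -/
def Dn (S : NumericalSemigroup) (k : ℕ) : Set (Finset ℕ) :=
  {D | D.card = k ∧ 0 ∉ D ∧ ∀ y ∈ D, ∀ s ∈ S.carrier, s ≤ y → y - s ∈ D}

theorem Dn_gap {S : NumericalSemigroup} {k : ℕ} {D : Finset ℕ} (hD : D ∈ Dn S k) {y : ℕ}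
    (hy : y ∈ D) : y ∉ S.carrier := by
  intro h
  have := hD.2.2 y hy y h le_rfl
  rw [Nat.sub_self] at this
  exact hD.2.1 this

theorem Dn_finite (S : NumericalSemigroup) (k : ℕ) : (Dn S k).Finite := by
  refine (S.finite_compl.toFinset.powerset.finite_toSet).subset ?_
  intro D hD
  simp only [Finset.coe_powerset, Set.mem_preimage, Set.mem_powerset_iff]
  intro y hy
  simpa using Dn_gap hD (by simpa using hy)

/-- ideals of corank `k` correspond to `Dn S k` -/
noncomputable def corankEquiv (S : NumericalSemigroup) (k : ℕ) :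
    {E : NI S // (E.1)ᶜ.ncard = k} ≃ Dn S k where
  toFun E := ⟨E.1.compl_finite.toFinset, by
    refine ⟨?_, ?_, ?_⟩
    · rw [← Set.ncard_eq_toFinset_card _ E.1.compl_finite]; exact E.2
    · simpa using E.1.2.1
    · intro y hy s hs hsy
      simp only [Set.Finite.mem_toFinset, Set.mem_compl_iff] at hy ⊢
      intro hc
      apply hy
      have := E.1.2.2 s hs _ hc
      rwa [Nat.add_sub_cancel' hsy] at this⟩
  invFun D := ⟨⟨((D.1 : Set ℕ))ᶜ, by simpa using D.2.2.1, by
    intro s hs e he hc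
    simp only [Set.mem_compl_iff, Finset.mem_coe] at he hc
    apply he
    have := D.2.2.2 _ hc s hs (by omega)
    rwa [Nat.add_sub_cancel_left] at this⟩, by
    simp only [compl_compl, Set.ncard_coe_finset]
    exact D.2.1⟩
  left_inv E := by
    refine Subtype.ext (Subtype.ext ?_)
    simp
  right_inv D := by
    refine Subtype.ext ?_
    ext x
    simp

/-- the key comparison -/
theorem card_lt {S T : NumericalSemigroup} {x : ℕ} (hxS : x ∈ S.carrier) (hxT : x ∉ T.carrier)
    (hlt : ∀ y < x, (y ∈ S.carrier ↔ y ∈ T.carrier)) :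
    ∃ k, (Dn S k).ncard < (Dn T k).ncard := by
  classical
  let B : Finset ℕ := (Finset.range x).filter (· ∈ T.carrier)
  have hBS : B = (Finset.range x).filter (· ∈ S.carrier) := by
    apply Finset.filter_congr
    intro y hy
    exact (hlt y (Finset.mem_range.1 hy)).symm
  refine ⟨B.card, Set.ncard_lt_ncard ⟨?_, ?_⟩ (Dn_finite T _)⟩
  · intro D hD
    have hDx : ∀ y ∈ D, y < x := by
      intro y hy
      by_contra hc
      have hyx : x < y := by
        rcases Nat.lt_or_ge x y with h | h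
        · exact h
        · have : y = x := by omega
          exact absurd (this ▸ hxS) (Dn_gap hD hy)
      have h1 : (insert x B).card ≤ D.card := by
        refine Finset.card_le_card_of_injOn (fun s => y - s) ?_ ?_
        · intro s hs
          simp only [Finset.coe_insert, Set.mem_insert_iff, Finset.mem_coe] at hs
          rcases hs with rfl | hs
          · exact hD.2.2 y hy _ hxS (by omega)
          · rw [hBS] at hs
            simp only [Finset.mem_filter, Finset.mem_range] at hs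
            exact hD.2.2 y hy _ hs.2 (by omega)
        · intro s hs t ht hst
          simp only [Finset.coe_insert, Set.mem_insert_iff, Finset.mem_coe] at hs ht
          have hs' : s ≤ x := by
            rcases hs with rfl | hs
            · exact le_rfl
            · have := (Finset.mem_filter.1 hs).1
              have := Finset.mem_range.1 this
              omega
          have ht' : t ≤ x := by
            rcases ht with rfl | ht
            · exact le_rfl
            · have := (Finset.mem_filter.1 ht).1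
              have := Finset.mem_range.1 this
              omega
          simp only at hst
          omega
      have hxB : x ∉ B := by simp [B]
      rw [Finset.card_insert_of_notMem hxB, hD.1] at h1
      omega
    refine ⟨hD.1, hD.2.1, fun y hy s hs hsy => hD.2.2 y hy s ?_ hsy⟩
    exact (hlt s (lt_of_le_of_lt hsy (hDx y hy))).2 hs
  · intro hsub
    let D₀ : Finset ℕ := B.image (fun t => x - t)
    have hx0 : 0 < x := by
      rcases Nat.eq_zero_or_pos x with h | h
      · exact absurd (h ▸ T.zero_mem') hxT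
      · exact h
    have hD₀ : D₀ ∈ Dn T B.card := by
      refine ⟨?_, ?_, ?_⟩
      · refine Finset.card_image_of_injOn ?_
        intro s hs t ht hst
        have h1 := Finset.mem_range.1 (Finset.mem_filter.1 (Finset.mem_coe.1 hs)).1
        have h2 := Finset.mem_range.1 (Finset.mem_filter.1 (Finset.mem_coe.1 ht)).1
        simp only at hst
        omega
      · intro h0
        obtain ⟨t, ht, ht'⟩ := Finset.mem_image.1 h0
        have h1 := Finset.mem_range.1 (Finset.mem_filter.1 ht).1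
        omega
      · intro y hy s hs hsy
        obtain ⟨t, ht, rfl⟩ := Finset.mem_image.1 hy
        have h1 := Finset.mem_range.1 (Finset.mem_filter.1 ht).1
        have h2 := (Finset.mem_filter.1 ht).2
        have h3 : t + s ∈ T.carrier := T.add_mem' h2 hs
        have h4 : t + s ≠ x := fun h => hxT (h ▸ h3)
        refine Finset.mem_image.2 ⟨t + s, Finset.mem_filter.2 ⟨Finset.mem_range.2 (by omega), h3⟩, by omega⟩
    have hxD : x ∈ D₀ := by
      refine Finset.mem_image.2 ⟨0, Finset.mem_filter.2 ⟨Finset.mem_range.2 hx0, T.zero_mem'⟩, by simp⟩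
    exact Dn_gap (hsub hD₀) hxD hxS

/-- **Theorem.** If the posets `(Cl(S₁), ⪯)` and `(Cl(S₂), ⪯)` are isomorphic, then `S₁ = S₂`. -/
theorem result (S₁ S₂ : NumericalSemigroup) (h : Nonempty (Cl.dvd S₁ ≃r Cl.dvd S₂)) :
    S₁ = S₂ := by
  classical
  obtain ⟨φ⟩ := h
  let f₁ : NI S₁ ≃ Cl S₁ := Equiv.ofBijective _ ⟨NI.cls_injective, NI.cls_surjective⟩
  let f₂ : NI S₂ ≃ Cl S₂ := Equiv.ofBijective _ ⟨NI.cls_injective, NI.cls_surjective⟩
  let ψ : NI S₁ ≃ NI S₂ := (f₁.trans φ.toEquiv).trans f₂.symm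
  have hψ : ∀ E, (ψ E).cls = φ E.cls := by
    intro E
    exact f₂.apply_symm_apply _
  have hdvd : ∀ E F : NI S₁, E.dvd F ↔ (ψ E).dvd (ψ F) := by
    intro E F
    rw [← NI.cls_dvd, ← NI.cls_dvd, hψ, hψ]
    exact φ.map_rel_iff.symm
  have hchain : ∀ r (E : NI S₁), NI.HasChain r E ↔ NI.HasChain r (ψ E) := by
    intro r
    induction r with
    | zero => intro E; simp [NI.HasChain]
    | succ r ih =>
      intro E
      constructor
      · rintro ⟨F, h1, h2, h3⟩
        exact ⟨ψ F, (hdvd _ _).1 h1, fun hc => h2 (ψ.injective hc), (ih F).1 h3⟩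
      · rintro ⟨F, h1, h2, h3⟩
        obtain ⟨F, rfl⟩ := ψ.surjective F
        exact ⟨F, (hdvd _ _).2 h1, fun hc => h2 (congrArg ψ hc), (ih F).2 h3⟩
  have hcorank : ∀ E : NI S₁, (E.1)ᶜ.ncard = ((ψ E).1)ᶜ.ncard := by
    intro E
    refine le_antisymm ?_ ?_
    · exact (NI.hasChain_iff _ _).1 ((hchain _ E).1 ((NI.hasChain_iff _ _).2 le_rfl))
    · exact (NI.hasChain_iff _ _).1 ((hchain _ E).2 ((NI.hasChain_iff _ _).2 le_rfl))
  have hcount : ∀ k, (Dn S₁ k).ncard = (Dn S₂ k).ncard := by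
    intro k
    have e : {E : NI S₁ // (E.1)ᶜ.ncard = k} ≃ {E : NI S₂ // (E.1)ᶜ.ncard = k} :=
      ψ.subtypeEquiv (fun E => by rw [hcorank])
    exact Nat.card_congr (((corankEquiv S₁ k).symm.trans e).trans (corankEquiv S₂ k))
  have hcar : S₁.carrier = S₂.carrier := by
    by_contra hne
    have hex : ∃ x, ¬ (x ∈ S₁.carrier ↔ x ∈ S₂.carrier) := by
      by_contra hc
      push Not at hc
      exact hne (Set.ext hc)
    have h1 := Nat.find_spec hex
    have h2 : ∀ y < Nat.find hex, (y ∈ S₁.carrier ↔ y ∈ S₂.carrier) := fun y hy => by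
      have := Nat.find_min hex hy
      tauto
    by_cases h3 : Nat.find hex ∈ S₁.carrier
    · have h4 : Nat.find hex ∉ S₂.carrier := fun h4 => h1 ⟨fun _ => h4, fun _ => h3⟩
      obtain ⟨k, hk⟩ := card_lt h3 h4 h2
      exact absurd (hcount k) hk.ne
    · have h4 : Nat.find hex ∈ S₂.carrier := by
        by_contra h4
        exact h1 ⟨fun h => absurd h h3, fun h => absurd h h4⟩
      obtain ⟨k, hk⟩ := card_lt h4 h3 (fun y hy => (h2 y hy).symm)
      exact absurd (hcount k).symm hk.ne
  cases S₁ with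
  | mk A hA =>
    cases S₂ with
    | mk B hB =>
      have : A = B := SetLike.coe_injective hcar
      subst this
      rfl

end Pool.Agent.Results.MP_6e7624_al.PosetDeterminesSemigroup
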